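import Pool.Agent.Q202.Iso.Defs
import Pool.Agent.Q202.Iso.Final

/-!
# A finitely generated algebra isotypic to an algebra that is not finitely generated
-/

namespace Pool.Agent.Results.MP_74a3dd_lc.NotFinitelyGenerated

open FirstOrder FirstOrder.Language Q202.Iso

/-- **Theorem.** There are a countable signature `L` (operation symbols only) and `L`-algebras
`H₁`, `H₂` which are isotypic, such that `H₁` is finitely generated (even generated by one element)
and `H₂` is not finitely generated. -/
theorem result :
    ∃ (L : Language.{0, 0}) (_ : L.IsAlgebraic) (_ : Countable L.Symbols)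
      (H₁ H₂ : Type) (_ : L.Structure H₁) (_ : L.Structure H₂),
      Isotypic L H₁ H₂ ∧ (∃ a : H₁, Substructure.closure L {a} = ⊤) ∧
      Structure.FG L H₁ ∧ ¬ Structure.FG L H₂ := by
  refine ⟨Lg, inferInstance, inferInstance, H (Fin 1), H ℕ, inferInstance, inferInstance,
    isotypic_of_typesLE (typesLE_of_emb ⟨fun _ => 0, fun _ _ _ => Subsingleton.elim _ _⟩)
      (typesLE_any ℕ), ⟨de (0, ∅), ?_⟩, fg_of_finite _, not_fg_of_infinite _⟩
  rw [eq_top_iff]
  intro f _
  apply mem_of_gens
  intro y
  rw [Subsingleton.elim y 0]
  exact Substructure.subset_closure (Set.mem_singleton _)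

end Pool.Agent.Results.MP_74a3dd_lc.NotFinitelyGenerated
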